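import Mathlib

namespace Pool.Agent.H.MP_9aae89_an

open Filter Topology Set MeasureTheory Real

noncomputable abbrev E := EuclideanSpace ℝ (Fin 3)

noncomputable def ee (i : Fin 3) : E := EuclideanSpace.single i 1

noncomputable def trL : (E →L[ℝ] E →L[ℝ] ℝ) →L[ℝ] ℝ :=
  ∑ i, ContinuousLinearMap.apply ℝ ℝ (ee i) ∘L ContinuousLinearMap.apply ℝ (E →L[ℝ] ℝ) (ee i)

lemma trL_apply (A : E →L[ℝ] E →L[ℝ] ℝ) : trL A = ∑ i, A (ee i) (ee i) := by
  simp [trL]

lemma lap_eq (f : E → ℝ) (x : E) : Laplacian.laplacian f x = trL (fderiv ℝ (fderiv ℝ f) x) := by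
  rw [InnerProductSpace.laplacian_eq_iteratedFDeriv_orthonormalBasis f
    (EuclideanSpace.basisFun (Fin 3) ℝ), trL_apply]
  simp [iteratedFDeriv_two_apply, ee]

noncomputable def gg (s : ℝ) : ℝ := smoothTransition (s - 1) / (s * √s)

lemma gg_cd : ContDiff ℝ 1 gg := by
  refine contDiff_iff_contDiffAt.2 fun s => ?_
  by_cases h : s < 1
  · refine (contDiffAt_const (c := 0)).congr_of_eventuallyEq ?_
    filter_upwards [Iio_mem_nhds h] with t ht
    rw [gg, smoothTransition.zero_of_nonpos (sub_nonpos.2 (le_of_lt ht)), zero_div]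
  · have : 0 < s := by linarith
    exact (smoothTransition.contDiffAt.comp s (contDiffAt_id.sub contDiffAt_const)).div
      (contDiffAt_id.mul (contDiffAt_sqrt this.ne')) (by positivity)

lemma gg_id {s : ℝ} (hs : 0 < s) :
    4 * s * deriv gg s + 6 * gg s = 4 * deriv smoothTransition (s - 1) / √s := by
  have h1 : HasDerivAt (fun s => smoothTransition (s - 1)) (deriv smoothTransition (s - 1)) s :=
    ((smoothTransition.contDiff (n := 1)).differentiable one_ne_zero _).hasDerivAt.comp_sub_const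
      s 1
  have h2 := (hasDerivAt_id' s).fun_mul (hasDerivAt_sqrt hs.ne')
  have q : 0 < √s := sqrt_pos.2 hs
  have := (h1.fun_div h2 (by positivity)).deriv
  rw [show deriv gg s = _ from this, gg]
  obtain ⟨t, ht, rfl⟩ : ∃ t, 0 < t ∧ s = t ^ 2 := ⟨√s, q, (sq_sqrt hs.le).symm⟩
  rw [sqrt_sq ht.le]
  field_simp
  ring

noncomputable def psi (s : ℝ) : ℝ := √2 - ∫ t in (2 : ℝ)..s, gg t

lemma psi_d (s : ℝ) : HasDerivAt psi (-gg s) s :=
  (gg_cd.continuous.integral_hasStrictDerivAt 2 s).hasDerivAt.const_sub _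

lemma psi_eq {s : ℝ} (hs : 2 ≤ s) : psi s = 2 / √s := by
  have : ∫ t in (2 : ℝ)..s, gg t = -2 / √s - -2 / √2 := by
    refine intervalIntegral.integral_eq_sub_of_hasDerivAt (f := fun t => -2 / √t) (fun t ht => ?_)
      (gg_cd.continuous.intervalIntegrable _ _)
    rw [uIcc_of_le hs] at ht
    have t0 : 0 < t := by linarith [ht.1]
    have q : 0 < √t := sqrt_pos.2 t0
    refine ((hasDerivAt_const t (-2 : ℝ)).fun_div (hasDerivAt_sqrt t0.ne') q.ne').congr_deriv ?_
    rw [gg, smoothTransition.one_of_one_le (by linarith [ht.1]), sq_sqrt t0.le]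
    field_simp
    ring
  rw [psi, this]
  have q : (0 : ℝ) < √2 := by positivity
  have : 2 / √2 = √2 := by rw [div_eq_iff q.ne', mul_self_sqrt (by norm_num)]
  rw [neg_div, neg_div, this]
  ring

noncomputable def kk (y : E) : ℝ := psi (‖y‖ ^ 2)

lemma kk_cd : ContDiff ℝ 2 kk := by
  refine ContDiff.comp ?_ (contDiff_norm_sq ℝ)
  rw [show (2 : WithTop ℕ∞) = 1 + 1 from rfl, contDiff_succ_iff_deriv]
  refine ⟨fun s => (psi_d s).differentiableAt, by simp, ?_⟩
  rw [show deriv psi = fun s => -gg s from funext fun s => (psi_d s).deriv]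
  exact gg_cd.neg

lemma kk_d : fderiv ℝ kk = fun y => (-2 * gg (‖y‖ ^ 2)) • innerSL ℝ y := by
  funext y
  rw [show fderiv ℝ kk y = _ from
    ((psi_d _).comp_hasFDerivAt y (hasStrictFDerivAt_norm_sq y).hasFDerivAt).fderiv]
  ext v
  simp
  ring

noncomputable def eta (y : E) : ℝ := trL (fderiv ℝ (fderiv ℝ kk) y)

lemma eta_eq (y : E) : eta y = -(4 * ‖y‖ ^ 2 * deriv gg (‖y‖ ^ 2) + 6 * gg (‖y‖ ^ 2)) := by
  have h1 := (((gg_cd.differentiable one_ne_zero _).hasDerivAt.comp_hasFDerivAt y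
    (hasStrictFDerivAt_norm_sq y).hasFDerivAt).const_mul (-2)).fun_smul
      (innerSL ℝ (E := E)).hasFDerivAt
  rw [eta, kk_d, show fderiv ℝ (fun y : E => (-2 * gg (‖y‖ ^ 2)) • innerSL ℝ y) y = _ from
    h1.fderiv, trL_apply, EuclideanSpace.real_norm_sq_eq]
  have e : ∀ (z : E) i, innerSL ℝ z (ee i) = z i := fun z i => by
    rw [innerSL_apply_apply, ee, EuclideanSpace.inner_single_right]; simp
  simp only [add_apply, smul_apply, ContinuousLinearMap.smulRight_apply, e]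
  simp [ee, Fin.sum_univ_three, EuclideanSpace.real_norm_sq_eq]
  ring

lemma eta_cont : Continuous eta :=
  trL.continuous.comp ((kk_cd.fderiv_right (m := 1) le_rfl).continuous_fderiv one_ne_zero)

lemma eta_zero {y : E} (h : 3 ≤ ‖y‖) : eta y = 0 := by
  have : 9 ≤ ‖y‖ ^ 2 := by nlinarith
  rw [eta_eq, gg_id (by linarith)]
  have : deriv smoothTransition (‖y‖ ^ 2 - 1) = deriv (fun _ => (1 : ℝ)) (‖y‖ ^ 2 - 1) := by
    refine EventuallyEq.deriv_eq ?_
    filter_upwards [Ioi_mem_nhds (show 1 < ‖y‖ ^ 2 - 1 by linarith)] with t ht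
    exact smoothTransition.one_of_one_le (le_of_lt ht)
  simp [this]

lemma cs_of {G : Type*} [Zero G] {g : E → G} (h : ∀ y, 3 ≤ ‖y‖ → g y = 0) :
    HasCompactSupport g :=
  HasCompactSupport.intro (isCompact_closedBall 0 3) fun y hy =>
    h y (not_le.1 (mt mem_closedBall_zero_iff.2 hy)).le

lemma eta_int : ∫ y, eta y < 0 := by
  obtain ⟨c, c1, c2⟩ := exists_deriv_eq_slope smoothTransition zero_lt_one
    smoothTransition.continuous.continuousOn
    ((smoothTransition.contDiff (n := 1)).differentiable one_ne_zero).differentiableOn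
  have := eta_cont.neg.integral_pos_of_hasCompactSupport_nonneg_nonzero (μ := volume)
    (cs_of fun y h => by simp [eta_zero h]) (fun y => ?_) (x := √(c + 1) • ee 0) ?_
  · simp only [Pi.neg_apply] at this
    rwa [integral_neg, neg_pos] at this
  · change 0 ≤ -eta y
    rw [eta_eq, neg_neg]
    rcases (sq_nonneg ‖y‖).eq_or_lt with h | h
    · simp [← h, gg]
    · rw [gg_id h]
      exact div_nonneg (mul_nonneg (by norm_num) smoothTransition.monotone.deriv_nonneg)
        (sqrt_nonneg _)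
  · have p : 0 < c + 1 := by linarith [c1.1]
    have : ‖√(c + 1) • ee 0‖ ^ 2 = c + 1 := by
      rw [norm_smul, ee, PiLp.norm_single, norm_one, mul_one, norm_of_nonneg
        (sqrt_nonneg _), sq_sqrt p.le]
    rw [Pi.neg_apply, eta_eq, neg_neg, this, gg_id p, add_sub_cancel_right, c2]
    have := sqrt_pos.2 p
    simp
    positivity

lemma kk_hom {y : E} (h : 3 ≤ ‖y‖) : kk y - 2⁻¹ * kk ((2 : ℝ)⁻¹ • y) = 0 := by
  have e : ‖(2 : ℝ)⁻¹ • y‖ = 2⁻¹ * ‖y‖ := by rw [norm_smul]; simp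
  rw [kk, kk, psi_eq (by nlinarith), psi_eq (by rw [e]; nlinarith), sqrt_sq (norm_nonneg _),
    sqrt_sq (norm_nonneg _), e]
  have : 0 < ‖y‖ := by linarith
  field_simp
  ring

/-- the harmonic cubic -/
def pp (q : ℝ × ℝ) : ℝ := q.1 ^ 3 - 3 * q.1 * q.2 ^ 2

lemma slice {A : Set ℝ} {L : ℝ} (h : ∀ u ∈ A, ∀ v ∈ A, u - v ≤ L) :
    volume A ≤ ENNReal.ofReal (2 * L) := by
  rcases A.eq_empty_or_nonempty with rfl | ⟨u, hu⟩
  · simp
  · refine (measure_mono (t := Icc (u - L) (u + L)) fun v hv =>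
      ⟨by linarith [h u hu v hv], by linarith [h v hv u hu]⟩).trans ?_
    rw [Real.volume_Icc]
    exact ENNReal.ofReal_le_ofReal (by linarith)

lemma slice2 {S : Set (ℝ × ℝ)} (hS : IsClosed S)
    (h : ∀ a u v, (a, u) ∈ S → (a, v) ∈ S → (u - v) * (1 + a ^ 2) ≤ 4) :
    volume S ≤ ENNReal.ofReal (8 * π) := by
  rw [Measure.volume_eq_prod, Measure.prod_apply hS.measurableSet, ← integral_univ_inv_one_add_sq,
    ← integral_const_mul, ofReal_integral_eq_lintegral_ofReal
      (integrable_inv_one_add_sq.const_mul _) (Eventually.of_forall fun a => by positivity)]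
  refine lintegral_mono fun a => (slice (L := 4 * (1 + a ^ 2)⁻¹) fun u hu v hv => ?_).trans
    (le_of_eq (by rw [← mul_assoc]; norm_num))
  rw [← div_eq_mul_inv, le_div_iff₀ (by positivity)]
  exact h a u v hu hv

lemma area1 (c : ℝ) : volume {q | |pp q - c| ≤ 1} ≤ ENNReal.ofReal (40 * π) := by
  have cp : Continuous pp := by unfold pp; fun_prop
  have cl : IsClosed {q | |pp q - c| ≤ 1} := isClosed_le (by fun_prop) continuous_const
  have sw : ∀ S : Set (ℝ × ℝ), IsClosed S → (∀ a u v, (u, a) ∈ S → (v, a) ∈ S →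
      (u - v) * (1 + a ^ 2) ≤ 4) → volume S ≤ ENNReal.ofReal (8 * π) := fun S hS h => by
    have := slice2 (hS.preimage continuous_swap) h
    rwa [Measure.volume_eq_prod, Measure.measurePreserving_swap.measure_preimage
      hS.measurableSet.nullMeasurableSet] at this
  have A : ∀ s : ℝ, s ^ 2 = 1 → volume ({q | |pp q - c| ≤ 1} ∩
      {q | q.1 ^ 2 ≤ 4 * q.2 ^ 2 ∧ q.2 ^ 2 ≤ 4 * q.1 ^ 2 ∧ 0 ≤ s * q.2}) ≤
        ENNReal.ofReal (8 * π) := fun s hs => by
    refine slice2 (cl.inter ((isClosed_le (by fun_prop) (by fun_prop)).and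
      ((isClosed_le (by fun_prop) (by fun_prop)).and
        (isClosed_le (by fun_prop) (by fun_prop))))) ?_
    rintro a u v ⟨h1, h2, h3, h4⟩ ⟨g1, g2, g3, g4⟩
    simp only [mem_ofPred_eq, pp, abs_le] at h1 h2 h3 h4 g1 g2 g3 g4
    have uv : 0 ≤ u * v := by nlinarith [mul_nonneg h4 g4]
    have b1 : (u - v) ^ 2 ≤ 4 * a ^ 2 := by
      rcases le_total (u ^ 2) (v ^ 2) with h | h
      · have : u ^ 2 ≤ u * v := by
          refine pow_le_pow_left₀ (sq_nonneg u) le_rfl 1 |> fun _ => abs_le_of_sq_le_sq'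
            (by nlinarith [sq_nonneg u]) uv |>.2
        nlinarith
      · have : v ^ 2 ≤ u * v := (abs_le_of_sq_le_sq' (by nlinarith [sq_nonneg v]) uv).2
        nlinarith
    have b2 : (3 * a * ((u - v) * (u + v))) ^ 2 ≤ 2 ^ 2 :=
      sq_le_sq' (by nlinarith) (by nlinarith)
    have b3 : a ^ 2 ≤ 2 * (u + v) ^ 2 := by nlinarith
    have b4 : ((u - v) * a ^ 2) ^ 2 ≤ 1 ^ 2 := by
      have := mul_le_mul_of_nonneg_left b3 (show 0 ≤ (u - v) ^ 2 * a ^ 2 by positivity)
      nlinarith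
    have b5 := (abs_le_of_sq_le_sq' b4 zero_le_one).2
    rcases le_total (a ^ 2) 1 with h | h
    · have := (abs_le_of_sq_le_sq' (show (u - v) ^ 2 ≤ 2 ^ 2 by linarith) (by norm_num)).2
      nlinarith
    · rcases le_total (u - v) 0 with h' | h' <;> nlinarith
  have B : volume ({q | |pp q - c| ≤ 1} ∩ {q | 4 * q.1 ^ 2 ≤ q.2 ^ 2}) ≤
      ENNReal.ofReal (8 * π) := by
    refine sw _ (cl.inter (isClosed_le (by fun_prop) (by fun_prop))) ?_
    rintro b u v ⟨h1, h2⟩ ⟨g1, g2⟩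
    simp only [mem_ofPred_eq, pp, abs_le] at h1 h2 g1 g2
    rcases le_total (u - v) 0 with h' | h'
    · nlinarith [sq_nonneg b]
    have b1 : (u - v) * (3 * b ^ 2 - (u ^ 2 + u * v + v ^ 2)) ≤ 2 := by nlinarith
    have b2 : 2 * b ^ 2 ≤ 3 * b ^ 2 - (u ^ 2 + u * v + v ^ 2) := by nlinarith [sq_nonneg (u - v)]
    have b3 : (u - v) * b ^ 2 ≤ 1 := by nlinarith [mul_le_mul_of_nonneg_left b2 h']
    rcases le_total (b ^ 2) 1 with h | h
    · have := (abs_le_of_sq_le_sq' (show (u - v) ^ 2 ≤ 1 ^ 2 by nlinarith [sq_nonneg (u + v)])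
        (by norm_num)).2
      nlinarith
    · nlinarith
  have C : ∀ s : ℝ, s ^ 2 = 1 → volume ({q | |pp q - c| ≤ 1} ∩
      {q | 4 * q.2 ^ 2 ≤ q.1 ^ 2 ∧ 0 ≤ s * q.1}) ≤ ENNReal.ofReal (8 * π) := fun s hs => by
    refine sw _ (cl.inter ((isClosed_le (by fun_prop) (by fun_prop)).and
      (isClosed_le (by fun_prop) (by fun_prop)))) ?_
    rintro b u v ⟨h1, h2, h4⟩ ⟨g1, g2, g4⟩
    simp only [mem_ofPred_eq, pp, abs_le] at h1 h2 h4 g1 g2 g4
    have uv : 0 ≤ u * v := by nlinarith [mul_nonneg h4 g4]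
    rcases le_total (u - v) 0 with h' | h'
    · nlinarith [sq_nonneg b]
    have b1 : (u - v) * (u ^ 2 + u * v + v ^ 2 - 3 * b ^ 2) ≤ 2 := by nlinarith
    have b2 : 5 * b ^ 2 ≤ u ^ 2 + u * v + v ^ 2 - 3 * b ^ 2 := by nlinarith
    have b3 : (u - v) ^ 2 / 2 ≤ u ^ 2 + u * v + v ^ 2 - 3 * b ^ 2 := by nlinarith
    have b4 : (u - v) * b ^ 2 ≤ 1 := by nlinarith [mul_le_mul_of_nonneg_left b2 h']
    have b5 : u - v ≤ 2 := by
      by_contra hc
      have hc := not_le.1 hc
      have := mul_le_mul_of_nonneg_left b3 h'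
      nlinarith [mul_pos (sub_pos.2 hc) (sub_pos.2 hc)]
    nlinarith
  have := add_le_add (add_le_add (add_le_add (A 1 (by norm_num)) (A (-1) (by norm_num))) B)
    (add_le_add (C 1 (by norm_num)) (C (-1) (by norm_num)))
  have p8 : 0 ≤ 8 * π := by positivity
  rw [← ENNReal.ofReal_add p8 p8, ← ENNReal.ofReal_add (by positivity) p8,
    ← ENNReal.ofReal_add (by positivity) (by positivity),
    show 8 * π + 8 * π + 8 * π + (8 * π + 8 * π) = 40 * π by ring] at this
  refine le_trans ?_ this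
  refine le_trans (measure_mono fun q hq => ?_) ((measure_union_le _ _).trans (add_le_add
    ((measure_union_le _ _).trans (add_le_add (measure_union_le _ _) le_rfl))
    (measure_union_le _ _)))
  simp only [mem_union, mem_inter_iff, mem_ofPred_eq, one_mul, neg_mul, Left.nonneg_neg_iff]
  have hq : |pp q - c| ≤ 1 := hq
  rcases le_total (4 * q.1 ^ 2) (q.2 ^ 2) with h1 | h1
  · tauto
  rcases le_total (4 * q.2 ^ 2) (q.1 ^ 2) with h2 | h2
  · rcases le_total 0 q.1 with h3 | h3 <;> tauto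
  · rcases le_total 0 q.2 with h3 | h3 <;> tauto

lemma area (c : ℝ) {r : ℝ} (hr : 0 < r) :
    volume {q | |pp q - c| ≤ r ^ 3} ≤ ENNReal.ofReal (r ^ 2 * (40 * π)) := by
  have : {q | |pp q - c| ≤ r ^ 3} = (r⁻¹ • ·) ⁻¹' {q | |pp q - c / r ^ 3| ≤ 1} := by
    ext q
    have : pp (r⁻¹ • q) - c / r ^ 3 = (pp q - c) / r ^ 3 := by
      simp only [pp, Prod.smul_fst, Prod.smul_snd, smul_eq_mul]
      field_simp
    simp only [mem_preimage, mem_ofPred_eq, this]
    rw [abs_div, abs_of_pos (pow_pos hr 3), div_le_one (pow_pos hr 3)]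
  rw [this, Measure.addHaar_preimage_smul _ (inv_ne_zero hr.ne'),
    ENNReal.ofReal_mul (by positivity)]
  gcongr
  · simp [abs_of_pos hr]
  · exact area1 _

def hh (y : E) : ℝ := y 0 + pp (y 1, y 2)

lemma slab (x : E) {R r : ℝ} (hr : 0 < r) (h : R + 2 ≤ r ^ 3) :
    volume ({y | |hh y| ≤ 2} ∩ Metric.closedBall x R) ≤
      ENNReal.ofReal (8 * (r ^ 2 * (40 * π))) := by
  have cp : Continuous pp := by unfold pp; fun_prop
  have mp := ((MeasurePreserving.id volume).prod (volume_preserving_finTwoArrow ℝ)).comp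
    ((volume_preserving_piFinSuccAbove (fun _ : Fin 3 => ℝ) 0).comp
      (PiLp.volume_preserving_ofLp (Fin 3)))
  set S : Set (ℝ × ℝ × ℝ) := {t | |t.1 + pp t.2| ≤ 2} ∩ {t | |pp t.2 - -x 0| ≤ r ^ 3}
  have hS : MeasurableSet S := ((isClosed_le (by fun_prop) (by fun_prop)).inter
    (isClosed_le (by fun_prop) (by fun_prop))).measurableSet
  refine le_trans (measure_mono fun y hy => ?_)
    ((mp.measure_preimage hS.nullMeasurableSet).le.trans ?_)
  · have a : |y 0 - x 0| ≤ R := (PiLp.dist_apply_le y x 0).trans hy.2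
    have b : |y 0 + pp (y 1, y 2)| ≤ 2 := hy.1
    refine ⟨b, ?_⟩
    change |pp (y 1, y 2) - -x 0| ≤ _
    rw [abs_le] at *
    constructor <;> linarith [a.1, a.2, b.1, b.2]
  · have m : MeasurableSet {q | |pp q - -x 0| ≤ r ^ 3} :=
      (isClosed_le (by fun_prop) (by fun_prop)).measurableSet
    rw [Measure.prod_apply_symm hS, ENNReal.ofReal_mul (by norm_num)]
    refine le_trans (lintegral_mono fun q => ?_) ((lintegral_indicator_const m
      (ENNReal.ofReal 8)).le.trans (by gcongr; exact area _ hr))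
    by_cases c : q ∈ {q | |pp q - -x 0| ≤ r ^ 3}
    · rw [indicator_of_mem c]
      refine (slice (L := 4) fun u hu v hv => ?_).trans (by norm_num)
      linarith [(abs_le.1 (show |u + pp q| ≤ 2 from hu.1)).2,
        (abs_le.1 (show |v + pp q| ≤ 2 from hv.1)).1]
    · exact (measure_mono_null (fun t ht => (c ht.2).elim) measure_empty).le.trans bot_le

end Pool.Agent.H.MP_9aae89_an
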