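import Pool.Agent.H.MP_9aae89_an.A

namespace Pool.Agent.H.MP_9aae89_an

open Filter Topology Set MeasureTheory Real

variable {G : Type*} [NormedAddCommGroup G] [NormedSpace ℝ G]

noncomputable def cv (g : E → G) (ρ : E → ℝ) (x : E) : G := ∫ y, ρ y • g (x - y)

lemma cv_d {g : E → G} (hg : ContDiff ℝ 1 g) (hc : HasCompactSupport g) {ρ : E → ℝ}
    (hρ : Continuous ρ) (x : E) : HasFDerivAt (cv g ρ) (cv (fderiv ℝ g) ρ x) x := by
  have := hc.hasFDerivAt_convolution_right (μ := volume) (ContinuousLinearMap.lsmul ℝ ℝ)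
    hρ.locallyIntegrable hg x
  exact this.congr_fderiv (integral_congr_ae (Eventually.of_forall fun y => by ext; simp))

lemma cv_cont {g : E → G} (hg : Continuous g) (hc : HasCompactSupport g) {ρ : E → ℝ}
    (hρ : Continuous ρ) : Continuous (cv g ρ) :=
  hc.continuous_convolution_right (μ := volume) (ContinuousLinearMap.lsmul ℝ ℝ)
    hρ.locallyIntegrable hg

lemma cv_int {g : E → G} (hg : Continuous g) (hc : HasCompactSupport g) {ρ : E → ℝ}
    (hρ : Continuous ρ) (x : E) : Integrable fun y => ρ y • g (x - y) :=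
  hc.convolutionExists_right (μ := volume) (ContinuousLinearMap.lsmul ℝ ℝ)
    hρ.locallyIntegrable hg x

noncomputable def sc (k : ℕ) (r : ℝ) (g : E → G) (y : E) : G := r⁻¹ ^ k • g (r⁻¹ • y)

lemma sc_cs {g : E → G} (hc : HasCompactSupport g) (k : ℕ) {r : ℝ} (hr : 0 < r) :
    HasCompactSupport (sc k r g) :=
  (hc.comp_smul (inv_ne_zero hr.ne')).smul_left (f := fun _ => r⁻¹ ^ k)

lemma sc_cd {n : WithTop ℕ∞} {g : E → G} (hg : ContDiff ℝ n g) (k : ℕ) (r : ℝ) :
    ContDiff ℝ n (sc k r g) :=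
  (hg.comp (contDiff_const_smul _)).const_smul _

lemma sc_d {g : E → G} (hg : ContDiff ℝ 1 g) (k : ℕ) (r : ℝ) :
    fderiv ℝ (sc k r g) = sc (k + 1) r (fderiv ℝ g) := by
  funext y
  have := ((hg.differentiable one_ne_zero (r⁻¹ • y)).hasFDerivAt.comp y
    ((hasFDerivAt_id y).const_smul r⁻¹)).const_smul (r⁻¹ ^ k)
  rw [show fderiv ℝ (sc k r g) y = _ from this.fderiv]
  ext v
  simp [sc, smul_smul, pow_succ]

lemma cv_sc (g : E → G) (ρ : E → ℝ) (k : ℕ) {r : ℝ} (hr : 0 < r) (x : E) :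
    cv (sc k r g) ρ x = (r⁻¹ ^ k * r ^ 3) • ∫ z, ρ (x - r • z) • g z := by
  have := Measure.integral_comp_inv_smul_of_nonneg volume
    (fun z : E => ρ (x - r • z) • g z) hr.le
  simp only [finrank_euclideanSpace, Fintype.card_fin, smul_inv_smul₀ hr.ne'] at this
  rw [mul_smul, ← this, ← integral_smul, ← integral_sub_left_eq_self _ _ x, cv]
  simp only [sub_sub_cancel, sc]
  exact integral_congr_ae (Eventually.of_forall fun y => smul_comm _ _ _)

lemma small {g : E → G} (hg : Continuous g) (h0 : ∀ y, 3 ≤ ‖y‖ → g y = 0) {σ : E → ℝ}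
    (hσ : Continuous σ) {c B : ℝ} (h : ∀ z, ‖z‖ < 3 → |σ z - c| ≤ B) :
    ‖(∫ z, σ z • g z) - c • ∫ z, g z‖ ≤ B * ∫ z, ‖g z‖ := by
  have i := hg.integrable_of_hasCompactSupport (μ := volume) (cs_of h0)
  rw [← integral_smul, ← integral_sub (f := fun z => σ z • g z) (g := fun z => c • g z)
    ((hσ.smul hg).integrable_of_hasCompactSupport (cs_of h0).smul_left) (i.smul c),
    ← integral_const_mul]
  refine norm_integral_le_of_norm_le (i.norm.const_mul B) (Eventually.of_forall fun z => ?_)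
  rw [← sub_smul, norm_smul]
  rcases lt_or_ge ‖z‖ 3 with a | a
  · exact mul_le_mul_of_nonneg_right (h z a) (norm_nonneg _)
  · simp [h0 z a]

def Adm (ε : ℝ) (ρ : E → ℝ) : Prop :=
  Continuous ρ ∧ (∀ y, |ρ y| ≤ ε) ∧ ∀ y, 2 < |hh y| → ρ y = 0

lemma large {g : E → G} (h0 : ∀ y, 3 ≤ ‖y‖ → g y = 0) {M : ℝ} (hM : ∀ y, ‖g y‖ ≤ M) {ε : ℝ}
    {ρ : E → ℝ} (hρ : Adm ε ρ) (k n : ℕ) (x : E) :
    ‖cv (sc (k + 1) (2 ^ n) g) ρ x‖ ≤ ε * (M * (1280 * π)) * (8 / 9) ^ n := by
  have e0 : 0 ≤ ε := (abs_nonneg _).trans (hρ.2.1 0)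
  have m0 : 0 ≤ M := (norm_nonneg _).trans (hM 0)
  have p1 : (1 : ℝ) ≤ 2 ^ n := one_le_pow₀ one_le_two
  have v := slab x (R := 3 * 2 ^ n) (r := 2 * (4 / 3) ^ n) (by positivity) (by
    rw [mul_pow, ← pow_mul, mul_comm n, pow_mul]
    have := pow_le_pow_left₀ zero_le_two (show (2 : ℝ) ≤ (4 / 3) ^ 3 by norm_num) n
    linarith)
  rw [cv, ← setIntegral_eq_integral_of_forall_compl_eq_zero
    (s := {y | |hh y| ≤ 2} ∩ Metric.closedBall x (3 * 2 ^ n))]
  · refine (norm_setIntegral_le_of_norm_le_const (C := ε * ((2 ^ n)⁻¹ * M))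
      (v.trans_lt ENNReal.ofReal_lt_top) fun y _ => ?_).trans ?_
    · rw [norm_smul, sc, norm_smul, norm_of_nonneg (by positivity : (0 : ℝ) ≤ (2 ^ n)⁻¹ ^ (k + 1))]
      gcongr
      · exact hρ.2.1 y
      · exact pow_le_of_le_one (by positivity) (inv_le_one_of_one_le₀ p1) k.succ_ne_zero
      · exact hM _
    · refine (mul_le_mul_of_nonneg_left (ENNReal.toReal_le_of_le_ofReal (by positivity) v)
        (by positivity)).trans (le_of_eq ?_)
      rw [mul_pow, ← pow_mul, mul_comm n, pow_mul,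
        show (8 / 9 : ℝ) = 2⁻¹ * (4 / 3) ^ 2 by norm_num, mul_pow, inv_pow]
      ring
  · intro y hy
    rw [mem_inter_iff, not_and_or] at hy
    rcases hy with hy | hy
    · rw [hρ.2.2 y (not_le.1 hy), zero_smul]
    · rw [sc, h0, smul_zero, smul_zero]
      rw [Metric.mem_closedBall', dist_eq_norm, not_le] at hy
      rw [norm_smul, norm_inv, norm_of_nonneg (by positivity), le_inv_mul_iff₀ (by positivity)]
      linarith

noncomputable def tm (k : ℕ) (g : E → G) (ρ : E → ℝ) (j : ℤ) : E → G := cv (sc k (2 ^ j) g) ρ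

lemma tm_bd {g : E → G} (hg : Continuous g) (h0 : ∀ y, 3 ≤ ‖y‖ → g y = 0) :
    ∃ C, 0 ≤ C ∧ ∀ (ε B c : ℝ) (ρ : E → ℝ) (k : ℕ) (x : E), Adm ε ρ → ε ≤ B → k ≤ 2 →
      c • ∫ z, g z = 0 →
      (∀ r : ℝ, 0 < r → r ≤ 1 → ∀ z, ‖z‖ < 3 → r ^ (2 - k) * |ρ (x - r • z) - c| ≤ B * r) →
        ∀ j : ℤ, ‖tm (k + 1) g ρ j x‖ ≤ B * C * (8 / 9) ^ j.natAbs := by
  obtain ⟨M, hM⟩ := (cs_of h0).exists_bound_of_continuous hg
  have m0 : 0 ≤ M := (norm_nonneg _).trans (hM 0)
  have i0 : 0 ≤ ∫ z, ‖g z‖ := integral_nonneg fun _ => norm_nonneg _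
  refine ⟨M * (1280 * π) + ∫ z, ‖g z‖, by positivity, fun ε B c ρ k x hρ hB hk hc h j => ?_⟩
  have e0 : 0 ≤ ε := (abs_nonneg _).trans (hρ.2.1 0)
  obtain ⟨n, rfl | rfl⟩ := j.eq_nat_or_neg
  · rw [tm, zpow_natCast, Int.natAbs_natCast]
    refine (large h0 hM hρ k n x).trans ?_
    gcongr
    · linarith
    · linarith
  · have r0 : (0 : ℝ) < 2 ^ (-n : ℤ) := by positivity
    have r1 : (2 : ℝ) ^ (-n : ℤ) ≤ (8 / 9) ^ n := by
      rw [zpow_neg, zpow_natCast, ← inv_pow]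
      exact pow_le_pow_left₀ (by norm_num) (by norm_num) n
    have r2 := r1.trans (pow_le_one₀ (by norm_num) (by norm_num))
    rw [tm, Int.natAbs_neg, Int.natAbs_natCast, cv_sc _ _ _ r0]
    generalize (2 : ℝ) ^ (-n : ℤ) = r at *
    have e : r⁻¹ ^ (k + 1) * r ^ 3 = r ^ (2 - k) := by
      rw [pow_sub₀ _ r0.ne' hk, inv_pow]
      field_simp
      ring
    have := small hg h0 (σ := fun z => r ^ (2 - k) * ρ (x - r • z))
      (by have := hρ.1; fun_prop) (c := r ^ (2 - k) * c) (B := B * r) fun z hz => by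
        rw [← mul_sub, abs_mul, abs_of_pos (pow_pos r0 _)]
        exact h r r0 r2 z hz
    simp only [mul_smul, integral_smul, hc, smul_zero, sub_zero] at this
    rw [e]
    refine this.trans ?_
    rw [mul_right_comm]
    gcongr
    · have : 0 ≤ B := e0.trans hB
      positivity
    · exact e0.trans hB
    · exact le_add_of_nonneg_left (by positivity)

lemma fd0 {g : E → G} (hg : ContDiff ℝ 1 g) (h0 : ∀ y, 3 ≤ ‖y‖ → g y = 0) (y : E)
    (hy : 3 ≤ ‖y‖) : fderiv ℝ g y = 0 := by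
  have : closure (Metric.closedBall (0 : E) 3)ᶜ ⊆ {y | fderiv ℝ g y = 0} := by
    refine closure_minimal (fun z hz => ?_)
      (isClosed_eq (hg.continuous_fderiv one_ne_zero) continuous_const)
    have : g =ᶠ[𝓝 z] fun _ => 0 := by
      filter_upwards [Metric.isClosed_closedBall.isOpen_compl.mem_nhds hz] with t ht
      exact h0 t (not_le.1 (mt mem_closedBall_zero_iff.2 ht)).le
    simp [this.fderiv_eq]
  refine this ?_
  rw [closure_compl, interior_closedBall _ (by norm_num)]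
  simpa using hy

lemma int_fd {g : E → G} (hg : ContDiff ℝ 1 g) (hc : HasCompactSupport g) :
    ∫ z, fderiv ℝ g z = 0 := by
  have := cv_d hg hc (ρ := fun _ => 1) continuous_const 0
  rw [show cv g (fun _ => 1) = fun _ => ∫ z, g z from funext fun x => by
    simp [cv, integral_sub_left_eq_self]] at this
  rw [← this.unique (hasFDerivAt_const _ _), cv]
  simp only [one_smul]
  exact (integral_sub_left_eq_self _ _ _).symm

lemma tele {a : ℤ → ℝ} {L : ℝ} (hs : Summable fun j => a j - a (j + 1))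
    (h1 : Tendsto (fun n : ℕ => a n) atTop (𝓝 0))
    (h2 : Tendsto (fun n : ℕ => a (-n)) atTop (𝓝 L)) : ∑' j, (a j - a (j + 1)) = L := by
  have A : HasSum (fun n : ℕ => a n - a (n + 1)) (a 0 - 0) := by
    refine (hs.comp_injective Nat.cast_injective).hasSum_iff_tendsto_nat.2
      ((h1.const_sub _).congr fun n => ?_)
    simpa using (Finset.sum_range_sub' (fun n : ℕ => a n) n).symm
  have B : HasSum (fun n : ℕ => a (-(n + 1)) - a (-(n + 1) + 1)) (L - a 0) := by
    refine (hs.comp_injective (i := fun n : ℕ => (-(n + 1) : ℤ))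
      fun m n h => by simpa using h).hasSum_iff_tendsto_nat.2 ((h2.sub_const _).congr fun n => ?_)
    simpa using (Finset.sum_range_sub (fun n : ℕ => a (-n)) n).symm
  simpa using (HasSum.of_nat_of_neg_add_one (f := fun j => a j - a (j + 1)) A B).tsum_eq

noncomputable def ka (y : E) : ℝ := kk y - sc 1 2 kk y

lemma ka_cd : ContDiff ℝ 2 ka := kk_cd.sub (sc_cd kk_cd _ _)

lemma ka0 (y : E) (h : 3 ≤ ‖y‖) : ka y = 0 := by simpa [ka, sc] using kk_hom h

lemma ka_tr (y : E) : trL (fderiv ℝ (fderiv ℝ ka) y) = eta y - sc 3 2 eta y := by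
  have c1 := kk_cd.of_le one_le_two
  have c2 := kk_cd.fderiv_right (m := 1) le_rfl
  have : fderiv ℝ ka = fderiv ℝ kk - sc 2 2 (fderiv ℝ kk) := by
    funext z
    rw [← sc_d c1]
    exact fderiv_fun_sub (c1.differentiable one_ne_zero _)
      ((sc_cd c1 _ _).differentiable one_ne_zero _)
  rw [this, fderiv_sub (c2.differentiable one_ne_zero _)
    ((sc_cd c2 _ _).differentiable one_ne_zero _), sc_d c2]
  simp only [trL_apply, eta, sc, sub_apply, smul_apply, Finset.sum_sub_distrib, Finset.smul_sum]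

lemma tm_tr {ρ : E → ℝ} (hρ : Continuous ρ) (j : ℤ) (x : E) :
    trL (tm 3 (fderiv ℝ (fderiv ℝ ka)) ρ j x) = tm 3 eta ρ j x - tm 3 eta ρ (j + 1) x := by
  have c1 := ka_cd.fderiv_right (m := 1) le_rfl
  have c0 := eta_cont
  have q : ∀ j : ℤ, Integrable fun y => ρ y • sc 3 (2 ^ j) eta (x - y) := fun j =>
    cv_int (by unfold sc; fun_prop) (sc_cs (cs_of fun _ => eta_zero) _ (by positivity)) hρ x
  rw [tm, tm, tm, cv, cv, cv, ← integral_sub (q _) (q _), ← trL.integral_comp_comm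
    (cv_int (contDiff_zero.1 (sc_cd (c1.fderiv_right (m := 0) le_rfl) _ _))
      (sc_cs (cs_of (fd0 c1 (fd0 (ka_cd.of_le one_le_two) ka0))) _ (by positivity)) hρ x)]
  refine integral_congr_ae (Eventually.of_forall fun y => ?_)
  simp only [sc, map_smul, ka_tr, smul_smul, zpow_add_one₀ (two_ne_zero' ℝ), mul_inv_rev,
    smul_eq_mul]
  ring

end Pool.Agent.H.MP_9aae89_an
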