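import Pool.Agent.H.MP_9aae89_an.C

namespace Pool.Agent.H.MP_9aae89_an

open Filter Topology Set MeasureTheory Real BoundedContinuousFunction
open scoped ContDiff

lemma hh_cd {n : WithTop ℕ∞} : ContDiff ℝ n hh := by
  unfold hh pp
  fun_prop

lemma hh_lap (x : E) : Laplacian.laplacian hh x = 0 := by
  have P : ∀ i (y : E), HasFDerivAt (fun y : E => y i) (EuclideanSpace.proj (𝕜 := ℝ) i) y :=
    fun i y => (EuclideanSpace.proj (𝕜 := ℝ) i : E →L[ℝ] ℝ).hasFDerivAt
  have d : fderiv ℝ hh = fun y => EuclideanSpace.proj (𝕜 := ℝ) 0 +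
      ((3 * y 1 ^ 2 - 3 * y 2 ^ 2) • EuclideanSpace.proj (𝕜 := ℝ) 1 -
        (6 * (y 1 * y 2)) • EuclideanSpace.proj (𝕜 := ℝ) 2) := funext fun y => by
    refine (((P 0 y).fun_add (((P 1 y).pow 3).fun_sub (((P 1 y).const_mul 3).fun_mul
      ((P 2 y).pow 2)))).congr_fderiv ?_).fderiv
    ext v
    simp
    ring
  rw [lap_eq, d]
  refine (congrArg trL (((((((P 1 x).pow 2).const_mul 3).fun_sub
    (((P 2 x).pow 2).const_mul 3)).smul_const _).fun_sub
      ((((P 1 x).fun_mul (P 2 x)).const_mul 6).smul_const _)).const_add _).fderiv).trans ?_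
  rw [trL_apply]
  simp [ee, Fin.sum_univ_three]
  ring

theorem fixed : ∃ (f : ℝ → ℝ) (w : E → ℝ), ContDiff ℝ ∞ f ∧ HasCompactSupport f ∧
    (∀ t, 0 ≤ f t) ∧ 0 < ∫ t, f t ∧ ContDiff ℝ 2 w ∧ (∀ x, |w x| ≤ 1) ∧
      (∀ x, ‖fderiv ℝ w x‖ ≤ 2⁻¹) ∧ ∀ x, Laplacian.laplacian w x = f (hh x + w x) := by
  obtain ⟨C, C0, hC⟩ := NN_bd
  let b : ContDiffBump (0 : ℝ) := ⟨2⁻¹, 1, by norm_num, by norm_num⟩
  obtain ⟨L, hL⟩ := (b.contDiff (n := 1)).lipschitzWith_of_hasCompactSupport b.hasCompactSupport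
    one_ne_zero
  obtain ⟨ε, e0, e1⟩ : ∃ ε : ℝ, 0 < ε ∧ ε * (L + 1) * C = 2⁻¹ :=
    ⟨(2 * (L + 1) * C)⁻¹, by positivity, by field_simp⟩
  have e2 : ε * C ≤ 2⁻¹ := by nlinarith [mul_nonneg (mul_pos e0 C0).le L.coe_nonneg]
  let R : (E →ᵇ ℝ) → E → ℝ := fun w y => -ε * b (hh y + max (-1) (min 1 (w y)))
  have z : ∀ w y, 2 < |hh y| → R w y = 0 := fun w y hy => by
    rw [show R w y = -ε * b _ from rfl, b.zero_of_le_dist, mul_zero]
    have a : |max (-1) (min 1 (w y))| ≤ 1 :=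
      abs_le.2 ⟨le_max_left _ _, max_le (by norm_num) (min_le_left _ _)⟩
    have := abs_sub (hh y + max (-1) (min 1 (w y))) (max (-1) (min 1 (w y)))
    rw [add_sub_cancel_right] at this
    change 1 ≤ _
    rw [dist_zero_right, norm_eq_abs]
    linarith
  have A : ∀ w, Adm ε (R w) := fun w => ⟨by
    have := (hh_cd (n := 0)).continuous
    have := b.continuous
    fun_prop, fun y => by
      rw [abs_mul, abs_neg, abs_of_pos e0, abs_of_nonneg b.nonneg]
      exact mul_le_of_le_one_right e0.le b.le_one, z w⟩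
  let T : (E →ᵇ ℝ) → E →ᵇ ℝ := fun w => ofNormedAddCommGroup (NN (R w)) (NN_c1 (A w)).continuous
    (ε * C) fun x => (hC _ _ x (A w)).1
  have K : ContractingWith 2⁻¹ T := by
    refine ⟨by norm_num, .of_dist_le_mul fun v w => (dist_le (by positivity)).2 fun x => ?_⟩
    have : Adm (ε * (L + 1) * dist v w) (R v - R w) := by
      refine ⟨(A v).1.sub (A w).1, fun y => ?_, fun y hy => by simp [z _ y hy]⟩
      have a := hL.dist_le_mul (hh y + max (-1) (min 1 (v y))) (hh y + max (-1) (min 1 (w y)))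
      have c := (((LipschitzWith.id.const_min 1).const_max (-1)).dist_le_mul (v y) (w y)).trans
        (mul_le_mul_of_nonneg_left (dist_coe_le_dist y) zero_le_one)
      rw [dist_add_left] at a
      rw [Pi.sub_apply, ← mul_sub, abs_mul, abs_neg, abs_of_pos e0, mul_assoc]
      refine mul_le_mul_of_nonneg_left (a.trans ?_) e0.le
      simp only [NNReal.coe_one, one_mul, id] at c
      nlinarith [mul_le_mul_of_nonneg_left c L.coe_nonneg, dist_nonneg (x := v) (y := w)]
    have := (hC _ _ x this).1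
    rw [NN_sub (A v) (A w), mul_right_comm, e1] at this
    exact this.trans_eq (by simp)
  obtain ⟨w, hw⟩ : ∃ w, T w = w := ⟨_, K.fixedPoint_isFixedPt⟩
  have W : NN (R w) = w := by rw [← hw]; funext x; rw [hw]; exact DFunLike.congr_fun hw x
  have w1 : ∀ x, |w x| ≤ 1 := fun x => W ▸ (hC _ _ x (A w)).1.trans (by linarith)
  have r : R w = fun y => -ε * b (hh y + w y) := funext fun y => by
    rw [show R w y = -ε * b _ from rfl, min_eq_right (abs_le.1 (w1 y)).2,
      max_eq_right (abs_le.1 (w1 y)).1]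
  have c : ContDiff ℝ 1 (R w) :=
    r ▸ contDiff_const.mul (b.contDiff.comp (hh_cd.add (W ▸ NN_c1 (A w))))
  have p : 0 < -ε * ∫ z, eta z := mul_pos_of_neg_of_neg (by linarith) eta_int
  refine ⟨fun t => (-ε * ∫ z, eta z) * b t, w, contDiff_const.mul b.contDiff,
    b.hasCompactSupport.mul_left, fun t => mul_nonneg p.le b.nonneg, ?_, W ▸ NN_c2 (A w) c, w1,
    fun x => W ▸ (hC _ _ x (A w)).2.trans e2, fun x => ?_⟩
  · rw [integral_const_mul]
    exact mul_pos p b.integral_pos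
  · have := NN_lap (A w) c x
    rw [W, r] at this
    rw [this]
    ring

lemma homeo {w : E → ℝ} (hw : Differentiable ℝ w) (h : ∀ x, ‖fderiv ℝ w x‖ ≤ 2⁻¹) {α β : ℝ}
    (a0 : 0 < α) (b0 : 0 < β) :
    ∃ Φ : E ≃ₜ E, ∀ x, hh x + w x = α * max (Φ x 0) 0 - β * max (-Φ x 0) 0 := by
  have A : ApproximatesLinearOn (fun y => y + w y • ee 0)
      (ContinuousLinearEquiv.refl ℝ E : E →L[ℝ] E) univ 2⁻¹ := fun x _ y _ => by
    have := convex_univ.norm_image_sub_le_of_norm_fderiv_le (fun x _ => hw x) (fun x _ => h x)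
      (mem_univ y) (mem_univ x)
    rw [show x + w x • ee 0 - (y + w y • ee 0) - (ContinuousLinearEquiv.refl ℝ E : E →L[ℝ] E)
      (x - y) = (w x - w y) • ee 0 by simp [sub_smul]; abel, norm_smul, ee, PiLp.norm_single]
    simpa using this
  let U : ℝ → ℝ := fun s => α * max s 0 - β * max (-s) 0
  let V : ℝ → ℝ := fun s => α⁻¹ * max s 0 - β⁻¹ * max (-s) 0
  have g : ∀ {α β : ℝ}, 0 < α → 0 < β → ∀ s, α * max (α⁻¹ * max s 0 - β⁻¹ * max (-s) 0) 0 -
      β * max (-(α⁻¹ * max s 0 - β⁻¹ * max (-s) 0)) 0 = s := fun {α β} a0 b0 s => by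
    rcases le_total 0 s with c | c
    · have : 0 ≤ α⁻¹ * s := by positivity
      simp [c, this, a0.ne']
    · have : β⁻¹ * s ≤ 0 := mul_nonpos_of_nonneg_of_nonpos (by positivity) c
      simp [c, this, b0.ne']
  have UV : ∀ s, U (V s) = s := g a0 b0
  have VU : ∀ s, V (U s) = s := by
    simpa only [inv_inv] using g (inv_pos.2 a0) (inv_pos.2 b0)
  have cp : Continuous pp := by unfold pp; fun_prop
  let Θ : E ≃ₜ E :=
    { toFun := fun y => y + (V (hh y) - y 0) • ee 0
      invFun := fun y => y + (U (y 0) - pp (y 1, y 2) - y 0) • ee 0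
      left_inv := fun y => by
        ext i
        fin_cases i <;> simp [ee, UV, hh]
      right_inv := fun y => by
        ext i
        fin_cases i <;> simp [ee, VU, hh]
      continuous_toFun := by
        have := (hh_cd (n := 0)).continuous
        fun_prop
      continuous_invFun := by fun_prop }
  refine ⟨(A.toHomeomorph _ (.inr (by simp; norm_num))).trans Θ, fun x => ?_⟩
  have : Θ (x + w x • ee 0) 0 = V (hh x + w x) := by
    change (x + w x • ee 0 + (V (hh (x + w x • ee 0)) - (x + w x • ee 0) 0) • ee 0) 0 = _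
    simp [ee, hh, add_right_comm]
  exact (UV _).symm.trans (congrArg U this.symm)

lemma notone {w : E → ℝ} (h : ∀ x, |w x| ≤ 1) (l : E →ₗ[ℝ] ℝ) (V : ℝ → ℝ) :
    ¬∀ x, hh x + w x = V (l x) := fun H => by
  have A : ∀ v, l v = 0 → ∀ t : ℝ, |t * v 0 + t ^ 3 * pp (v 1, v 2)| ≤ 2 := fun v hv t => by
    have a := H (t • v)
    rw [map_smul, hv, smul_zero, ← map_zero l, ← H] at a
    have b := abs_le.1 (h 0)
    have c := abs_le.1 (h (t • v))
    simp only [hh, pp, PiLp.smul_apply, smul_eq_mul, PiLp.zero_apply] at a ⊢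
    exact abs_le.2 ⟨by nlinarith, by nlinarith⟩
  have B : ∀ v, l v = 0 → v 0 = 0 := fun v hv => by
    by_contra c
    have a := abs_le.1 (A v hv (4 / v 0))
    have b := abs_le.1 (A v hv (2 * (4 / v 0)))
    rw [mul_assoc, mul_pow] at b
    rw [div_mul_cancel₀ _ c] at a b
    linarith
  have := B (l (ee 1) • ee 0 - l (ee 0) • ee 1) (by simp [mul_comm])
  have := A (ee 1) (by simpa [ee] using this) 2
  simp [ee, pp] at this
  norm_num at this

end Pool.Agent.H.MP_9aae89_an
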